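import Mathlib

namespace Pool.Agent.MatchConn

variable {E V : Type*} {p q r : E → V} {A B : Set E}

/-- two edges meet -/
def Meet (p q r : E → V) (a b : E) : Prop := p a = p b ∨ q a = q b ∨ r a = r b

/-- no four vertices cover `A ∪ B` -/
def Bad (p q r : E → V) (A B : Set E) : Prop :=
  ∀ v1 v2 v3 v4 : V, ∃ e, (e ∈ A ∨ e ∈ B) ∧
    (p e ≠ v1 ∧ p e ≠ v2 ∧ p e ≠ v3 ∧ p e ≠ v4) ∧
    (q e ≠ v1 ∧ q e ≠ v2 ∧ q e ≠ v3 ∧ q e ≠ v4) ∧
    (r e ≠ v1 ∧ r e ≠ v2 ∧ r e ≠ v3 ∧ r e ≠ v4)

/-- exactly one common vertex -/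
def Excl (p q r : E → V) (A B : Set E) : Prop :=
  ∀ a ∈ A, ∀ b ∈ B, ¬ (p a = p b ∧ q a = q b) ∧ ¬ (p a = p b ∧ r a = r b) ∧
    ¬ (q a = q b ∧ r a = r b)

lemma excl_of_bad (hX : ∀ a ∈ A, ∀ b ∈ B, Meet p q r a b) (hN : Bad p q r A B) :
    Excl p q r A B := by
  intro a ha b hb
  refine ⟨?_, ?_, ?_⟩
  · rintro ⟨h1, h2⟩
    obtain ⟨e, he, h3, h4, h5⟩ := hN (p a) (q a) (r a) (r b)
    rcases he with he | he
    · have := hX e he b hb
      unfold Meet at this
      grind
    · have := hX a ha e he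
      unfold Meet at this
      grind
  · rintro ⟨h1, h2⟩
    obtain ⟨e, he, h3, h4, h5⟩ := hN (p a) (q a) (r a) (q b)
    rcases he with he | he
    · have := hX e he b hb
      unfold Meet at this
      grind
    · have := hX a ha e he
      unfold Meet at this
      grind
  · rintro ⟨h1, h2⟩
    obtain ⟨e, he, h3, h4, h5⟩ := hN (p a) (q a) (r a) (p b)
    rcases he with he | he
    · have := hX e he b hb
      unfold Meet at this
      grind
    · have := hX a ha e he
      unfold Meet at this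
      grind

/-- two edges of `B` sharing two vertices -/
lemma L2 (hA : A.Nonempty) (hX : ∀ a ∈ A, ∀ b ∈ B, Meet p q r a b) (hN : Bad p q r A B)
    {b b' : E} (hb : b ∈ B) (hb' : b' ∈ B) (h1 : p b = p b') (h2 : q b = q b')
    (h3 : r b ≠ r b') : False := by
  have hE := excl_of_bad hX hN
  have key : ∀ α ∈ A, p α = p b ∨ q α = q b := by
    intro α hα
    have m1 := hX α hα b hb
    have m2 := hX α hα b' hb'
    have e1 := hE α hα b hb
    have e2 := hE α hα b' hb'
    unfold Meet at m1 m2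
    grind
  obtain ⟨a, ha⟩ := hA
  rcases key a ha with h | h
  · obtain ⟨e, he, h4, h5, h6⟩ := hN (p a) (q b) (q a) (r a)
    rcases he with he | he
    · have := key e he
      grind
    · have := hX a ha e he
      unfold Meet at this
      grind
  · obtain ⟨e, he, h4, h5, h6⟩ := hN (p b) (p a) (q a) (r a)
    rcases he with he | he
    · have := key e he
      grind
    · have := hX a ha e he
      unfold Meet at this
      grind

/-- two edges of `B` sharing exactly one vertex; `a`, `a'` of types `X` and `1` -/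
lemma L1aux (hX : ∀ a ∈ A, ∀ b ∈ B, Meet p q r a b) (hN : Bad p q r A B)
    {b b' : E} (hb : b ∈ B) (hb' : b' ∈ B) (h1 : p b = p b') (h2 : q b ≠ q b')
    (h3 : r b ≠ r b') {a a' : E} (ha : a ∈ A) (ha' : a' ∈ A) (hax : p a = p b)
    (_ha1 : p a' ≠ p b) (ha2 : q a' = q b) (ha3 : r a' = r b') : False := by
  have hE := excl_of_bad hX hN
  have types : ∀ α ∈ A, (p α = p b ∧ q α ≠ q b ∧ q α ≠ q b' ∧ r α ≠ r b ∧ r α ≠ r b') ∨
      (p α ≠ p b ∧ q α = q b ∧ r α = r b') ∨ (p α ≠ p b ∧ q α = q b' ∧ r α = r b) := by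
    intro α hα
    have m1 := hX α hα b hb
    have m2 := hX α hα b' hb'
    have e1 := hE α hα b hb
    have e2 := hE α hα b' hb'
    unfold Meet at m1 m2
    grind
  have ta := types a ha
  have hBa : ∀ β ∈ B, (p β = p a ∧ q β ≠ q a ∧ r β ≠ r a) ∨ (p β ≠ p a ∧ q β = q a ∧ r β ≠ r a) ∨
      (p β ≠ p a ∧ q β ≠ q a ∧ r β = r a) := by
    intro β hβ
    have m1 := hX a ha β hβ
    have e1 := hE a ha β hβ
    unfold Meet at m1
    grind
  have hBa' : ∀ β ∈ B, (p β = p a' ∧ q β ≠ q a' ∧ r β ≠ r a') ∨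
      (p β ≠ p a' ∧ q β = q a' ∧ r β ≠ r a') ∨ (p β ≠ p a' ∧ q β ≠ q a' ∧ r β = r a') := by
    intro β hβ
    have m1 := hX a' ha' β hβ
    have e1 := hE a' ha' β hβ
    unfold Meet at m1
    grind
  -- β1
  obtain ⟨β1, hβ1, c1, c2, c3⟩ : ∃ β ∈ B, p β = p a' ∧ (q β ≠ q b ∧ q β ≠ q b' ∧ q β ≠ q a) ∧
      r β = r a := by
    obtain ⟨e, he, h4, h5, h6⟩ := hN (p b) (q b) (q b') (q a)
    have heB : e ∈ B := by
      rcases he with he | he
      · have := types e he
        grind
      · exact he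
    have m1 := hBa e heB
    have m2 := hBa' e heB
    exact ⟨e, heB, by grind, by grind, by grind⟩
  obtain ⟨β2, hβ2, d1, d2, d3⟩ : ∃ β ∈ B, (p β ≠ p b ∧ p β ≠ p a') ∧ q β = q a ∧ r β = r b' := by
    obtain ⟨e, he, h4, h5, h6⟩ := hN (p b) (p a') (q b) (q b')
    have heB : e ∈ B := by
      rcases he with he | he
      · have := types e he
        grind
      · exact he
    have m1 := hBa e heB
    have m2 := hBa' e heB
    exact ⟨e, heB, by grind, by grind, by grind⟩
  obtain ⟨β4, hβ4, f1, f2, f3⟩ : ∃ β ∈ B, p β = p a' ∧ q β = q a ∧ (r β ≠ r b' ∧ r β ≠ r a) := by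
    obtain ⟨e, he, h4, h5, h6⟩ := hN (p b) (q b') (r b') (r a)
    have heB : e ∈ B := by
      rcases he with he | he
      · have := types e he
        grind
      · exact he
    have m1 := hBa e heB
    have m2 := hBa' e heB
    exact ⟨e, heB, by grind, by grind, by grind⟩
  have key : ∀ α ∈ A, p α = p a ∨ p α = p a' := by
    intro α hα
    have m1 := hX α hα β1 hβ1
    have m2 := hX α hα β2 hβ2
    have m4 := hX α hα β4 hβ4
    have t := types α hα
    unfold Meet at m1 m2 m4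
    grind
  obtain ⟨e, he, h4, h5, h6⟩ := hN (p a) (p a') (q a) (r a)
  rcases he with he | he
  · have := key e he
    grind
  · have := hBa e he
    grind

lemma L1 (hA : A.Nonempty) (hX : ∀ a ∈ A, ∀ b ∈ B, Meet p q r a b) (hN : Bad p q r A B)
    {b b' : E} (hb : b ∈ B) (hb' : b' ∈ B) (h1 : p b = p b') (h2 : q b ≠ q b')
    (h3 : r b ≠ r b') : False := by
  have hE := excl_of_bad hX hN
  have types : ∀ α ∈ A, (p α = p b ∧ q α ≠ q b ∧ q α ≠ q b' ∧ r α ≠ r b ∧ r α ≠ r b') ∨
      (p α ≠ p b ∧ q α = q b ∧ r α = r b') ∨ (p α ≠ p b ∧ q α = q b' ∧ r α = r b) := by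
    intro α hα
    have m1 := hX α hα b hb
    have m2 := hX α hα b' hb'
    have e1 := hE α hα b hb
    have e2 := hE α hα b' hb'
    unfold Meet at m1 m2
    grind
  -- a type X element
  obtain ⟨a, ha, hax⟩ : ∃ a ∈ A, p a = p b := by
    obtain ⟨c, hc⟩ := hA
    by_contra hcon
    push Not at hcon
    obtain ⟨e, he, h4, h5, h6⟩ := hN (p c) (q b) (q b') (r c)
    rcases he with he | he
    · have := types e he
      have := hcon e he
      grind
    · have m := hX c hc e he
      have t := types c hc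
      have := hcon c hc
      unfold Meet at m
      grind
  obtain ⟨a', ha', hax'⟩ : ∃ a ∈ A, p a ≠ p b := by
    by_contra hcon
    push Not at hcon
    obtain ⟨e, he, h4, h5, h6⟩ := hN (p a) (q a) (r a) (r a)
    rcases he with he | he
    · have := hcon e he
      grind
    · have m := hX a ha e he
      unfold Meet at m
      grind
  rcases types a' ha' with t | t | t
  · exact hax' t.1
  · exact L1aux hX hN hb hb' h1 h2 h3 ha ha' hax t.1 t.2.1 t.2.2
  · exact L1aux hX hN hb' hb h1.symm h2.symm h3.symm ha ha' (hax.trans h1) (by grind) t.2.1 t.2.2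

end Pool.Agent.MatchConn
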