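import Mathlib

namespace Pool.Agent.MatchConn

/-- A 3-partite 3-graph with vertex classes `V₁, V₂, V₃` is given by its family of edges
`e : ι → V₁ × V₂ × V₃` (repeated edges are allowed). Two edges are disjoint when they have no
common vertex. -/
def Disj {V₁ V₂ V₃ : Type*} (x y : V₁ × V₂ × V₃) : Prop :=
  x.1 ≠ y.1 ∧ x.2.1 ≠ y.2.1 ∧ x.2.2 ≠ y.2.2

/-- The 1-skeleton of the matching complex: its vertices are the edges of the hypergraph, two of
them are joined when they are disjoint. -/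
def matchingGraph {ι V₁ V₂ V₃ : Type*} (e : ι → V₁ × V₂ × V₃) : SimpleGraph ι where
  Adj i j := Disj (e i) (e j)
  symm := ⟨fun _ _ h => ⟨h.1.symm, h.2.1.symm, h.2.2.symm⟩⟩
  loopless := ⟨fun _ h => h.1 rfl⟩

/-- the set `s` of vertices meets every edge -/
def Covers {ι V₁ V₂ V₃ : Type*} (e : ι → V₁ × V₂ × V₃) (s : Finset (V₁ ⊕ V₂ ⊕ V₃)) : Prop :=
  ∀ i, Sum.inl (e i).1 ∈ s ∨ Sum.inr (Sum.inl (e i).2.1) ∈ s ∨ Sum.inr (Sum.inr (e i).2.2) ∈ s

/-- the cover number -/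
noncomputable def tau {ι V₁ V₂ V₃ : Type*} (e : ι → V₁ × V₂ × V₃) : ℕ :=
  sInf {k | ∃ s : Finset (V₁ ⊕ V₂ ⊕ V₃), Covers e s ∧ s.card = k}

end Pool.Agent.MatchConn
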