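import Mathlib
import Pool.Agent.MatchConn.Core

namespace Pool.Agent.MatchConn

variable {E V : Type*} {p q r : E → V} {A B : Set E}

lemma Bad.swap (h : Bad p q r A B) : Bad p q r B A := by
  intro v1 v2 v3 v4
  obtain ⟨e, he, h'⟩ := h v1 v2 v3 v4
  exact ⟨e, he.symm, h'⟩

lemma Bad.pqr_qpr (h : Bad p q r A B) : Bad q p r A B := by
  intro v1 v2 v3 v4
  obtain ⟨e, he, h1, h2, h3⟩ := h v1 v2 v3 v4
  exact ⟨e, he, h2, h1, h3⟩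

lemma Bad.pqr_prq (h : Bad p q r A B) : Bad p r q A B := by
  intro v1 v2 v3 v4
  obtain ⟨e, he, h1, h2, h3⟩ := h v1 v2 v3 v4
  exact ⟨e, he, h1, h3, h2⟩

lemma same_or_diff (hA : A.Nonempty) (hX : ∀ a ∈ A, ∀ b ∈ B, Meet p q r a b)
    (hN : Bad p q r A B) {b b' : E} (hb : b ∈ B) (hb' : b' ∈ B) :
    (p b = p b' ∧ q b = q b' ∧ r b = r b') ∨ (p b ≠ p b' ∧ q b ≠ q b' ∧ r b ≠ r b') := by
  have X1 : ∀ a ∈ A, ∀ b ∈ B, Meet q p r a b := by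
    intro a ha b hb
    have := hX a ha b hb
    unfold Meet at this ⊢
    tauto
  have X2 : ∀ a ∈ A, ∀ b ∈ B, Meet p r q a b := by
    intro a ha b hb
    have := hX a ha b hb
    unfold Meet at this ⊢
    tauto
  have X3 : ∀ a ∈ A, ∀ b ∈ B, Meet q r p a b := by
    intro a ha b hb
    have := hX a ha b hb
    unfold Meet at this ⊢
    tauto
  have X4 : ∀ a ∈ A, ∀ b ∈ B, Meet r p q a b := by
    intro a ha b hb
    have := hX a ha b hb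
    unfold Meet at this ⊢
    tauto
  by_cases h1 : p b = p b' <;> by_cases h2 : q b = q b' <;> by_cases h3 : r b = r b'
  · exact Or.inl ⟨h1, h2, h3⟩
  · exact (L2 hA hX hN hb hb' h1 h2 h3).elim
  · exact (L2 hA X2 hN.pqr_prq hb hb' h1 h3 h2).elim
  · exact (L1 hA hX hN hb hb' h1 h2 h3).elim
  · exact (L2 hA X3 hN.pqr_qpr.pqr_prq hb hb' h2 h3 h1).elim
  · exact (L1 hA X1 hN.pqr_qpr hb hb' h2 h1 h3).elim
  · exact (L1 hA X4 hN.pqr_prq.pqr_qpr hb hb' h3 h1 h2).elim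
  · exact Or.inr ⟨h1, h2, h3⟩

lemma three (hA : A.Nonempty) (hB : B.Nonempty) (hX : ∀ a ∈ A, ∀ b ∈ B, Meet p q r a b)
    (hN : Bad p q r A B)
    (hS : ∀ b ∈ A, ∀ b' ∈ A, (p b = p b' ∧ q b = q b' ∧ r b = r b') ∨
      (p b ≠ p b' ∧ q b ≠ q b' ∧ r b ≠ r b')) :
    ∃ a1 ∈ A, ∃ a2 ∈ A, ∃ a3 ∈ A, (p a1 ≠ p a2 ∧ q a1 ≠ q a2 ∧ r a1 ≠ r a2) ∧
      (p a1 ≠ p a3 ∧ q a1 ≠ q a3 ∧ r a1 ≠ r a3) ∧ (p a2 ≠ p a3 ∧ q a2 ≠ q a3 ∧ r a2 ≠ r a3) ∧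
      ∀ e ∈ A, (p e = p a1 ∧ q e = q a1 ∧ r e = r a1) ∨ (p e = p a2 ∧ q e = q a2 ∧ r e = r a2) ∨
        (p e = p a3 ∧ q e = q a3 ∧ r e = r a3) := by
  obtain ⟨a1, ha1⟩ := hA
  obtain ⟨b, hb⟩ := hB
  obtain ⟨a2, ha2, h12⟩ : ∃ a2 ∈ A, p a1 ≠ p a2 ∧ q a1 ≠ q a2 ∧ r a1 ≠ r a2 := by
    obtain ⟨e, he, h4, h5, h6⟩ := hN (p a1) (q a1) (r a1) (r a1)
    rcases he with he | he
    · exact ⟨e, he, h4.1.symm, h5.2.1.symm, h6.2.2.1.symm⟩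
    · have m := hX a1 ha1 e he
      unfold Meet at m
      grind
  obtain ⟨a3, ha3, h13, h23⟩ : ∃ a3 ∈ A, (p a1 ≠ p a3 ∧ q a1 ≠ q a3 ∧ r a1 ≠ r a3) ∧
      (p a2 ≠ p a3 ∧ q a2 ≠ q a3 ∧ r a2 ≠ r a3) := by
    obtain ⟨e, he, h4, h5, h6⟩ := hN (p a1) (q a1) (r a1) (p a2)
    rcases he with he | he
    · refine ⟨e, he, ⟨h4.1.symm, h5.2.1.symm, h6.2.2.1.symm⟩, ?_⟩
      rcases hS a2 ha2 e he with h | h
      · exact absurd h.1.symm h4.2.2.2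
      · exact h
    · have m := hX a1 ha1 e he
      unfold Meet at m
      grind
  refine ⟨a1, ha1, a2, ha2, a3, ha3, h12, h13, h23, fun e he => ?_⟩
  have s1 := hS e he a1 ha1
  have s2 := hS e he a2 ha2
  have s3 := hS e he a3 ha3
  have m0 := hX e he b hb
  have m1 := hX a1 ha1 b hb
  have m2 := hX a2 ha2 b hb
  have m3 := hX a3 ha3 b hb
  unfold Meet at m0 m1 m2 m3
  grind

theorem not_bad (hA : A.Nonempty) (hB : B.Nonempty) (hX : ∀ a ∈ A, ∀ b ∈ B, Meet p q r a b) :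
    ¬ Bad p q r A B := by
  intro hN
  have hX' : ∀ b ∈ B, ∀ a ∈ A, Meet p q r b a := by
    intro b hb a ha
    have := hX a ha b hb
    unfold Meet at this ⊢
    exact this.imp Eq.symm (Or.imp Eq.symm Eq.symm)
  have hSB := fun b hb b' hb' => same_or_diff hA hX hN (b := b) (b' := b') hb hb'
  have hSA := fun b hb b' hb' => same_or_diff hB hX' hN.swap (b := b) (b' := b') hb hb'
  obtain ⟨a1, ha1, a2, ha2, a3, ha3, -, -, -, hAe⟩ := three hA hB hX hN hSA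
  obtain ⟨b1, hb1, b2, hb2, b3, hb3, -, -, -, hBe⟩ := three hB hA hX' hN.swap hSB
  have hv : ∀ a ∈ A, ∀ b ∈ B, ∃ v, (v = p a ∨ v = q a ∨ v = r a) ∧ (v = p b ∨ v = q b ∨ v = r b) := by
    intro a ha b hb
    rcases hX a ha b hb with h | h | h
    · exact ⟨p a, Or.inl rfl, Or.inl h⟩
    · exact ⟨q a, Or.inr (Or.inl rfl), Or.inr (Or.inl h)⟩
    · exact ⟨r a, Or.inr (Or.inr rfl), Or.inr (Or.inr h)⟩
  obtain ⟨v1, h1, k1⟩ := hv a1 ha1 b1 hb1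
  obtain ⟨v2, h2, k2⟩ := hv a2 ha2 b2 hb2
  obtain ⟨v3, h3, k3⟩ := hv a3 ha3 b3 hb3
  obtain ⟨e, he, h4, h5, h6⟩ := hN v1 v2 v3 v3
  rcases he with he | he
  · rcases hAe e he with t | t | t <;> grind
  · rcases hBe e he with t | t | t <;> grind

end Pool.Agent.MatchConn
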