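import Mathlib
import Pool.Agent.MatchConn.Defs
import Pool.Agent.MatchConn.Main

namespace Pool.Agent.MatchConn

theorem final {ι V₁ V₂ V₃ : Type*} (e : ι → V₁ × V₂ × V₃) (hι : Nonempty ι)
    (h : ¬ (matchingGraph e).Connected) :
    tau e ≤ 4 ∧ ∃ s : Finset (V₁ ⊕ V₂ ⊕ V₃), Covers e s ∧ s.card ≤ 4 := by
  classical
  obtain ⟨i0⟩ := hι
  set A : Set ι := {i | (matchingGraph e).Reachable i0 i} with hA
  have hAne : A.Nonempty := ⟨i0, SimpleGraph.Reachable.refl _⟩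
  have hBne : (Aᶜ).Nonempty := by
    rw [Set.nonempty_compl]
    intro hu
    apply h
    refine (SimpleGraph.connected_iff_exists_forall_reachable _).mpr ⟨i0, fun w => ?_⟩
    have : w ∈ A := by rw [hu]; trivial
    exact this
  let p : ι → V₁ ⊕ V₂ ⊕ V₃ := fun i => Sum.inl (e i).1
  let q : ι → V₁ ⊕ V₂ ⊕ V₃ := fun i => Sum.inr (Sum.inl (e i).2.1)
  let r : ι → V₁ ⊕ V₂ ⊕ V₃ := fun i => Sum.inr (Sum.inr (e i).2.2)
  have hX : ∀ a ∈ A, ∀ b ∈ Aᶜ, Meet p q r a b := by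
    intro a ha b hb
    by_contra hcon
    apply hb
    refine SimpleGraph.Reachable.trans (v := a) ha (SimpleGraph.Adj.reachable ?_)
    unfold Meet at hcon
    push Not at hcon
    refine ⟨fun h1 => hcon.1 ?_, fun h1 => hcon.2.1 ?_, fun h1 => hcon.2.2 ?_⟩
    · simp only [p, h1]
    · simp only [q, h1]
    · simp only [r, h1]
  have hnb := not_bad hAne hBne hX
  obtain ⟨v1, v2, v3, v4, hv⟩ : ∃ v1 v2 v3 v4 : V₁ ⊕ V₂ ⊕ V₃, ∀ i, ¬ ((i ∈ A ∨ i ∈ Aᶜ) ∧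
      (p i ≠ v1 ∧ p i ≠ v2 ∧ p i ≠ v3 ∧ p i ≠ v4) ∧
      (q i ≠ v1 ∧ q i ≠ v2 ∧ q i ≠ v3 ∧ q i ≠ v4) ∧
      (r i ≠ v1 ∧ r i ≠ v2 ∧ r i ≠ v3 ∧ r i ≠ v4)) := by
    by_contra hcon
    apply hnb
    intro v1 v2 v3 v4
    by_contra hcon2
    exact hcon ⟨v1, v2, v3, v4, fun i hi => hcon2 ⟨i, hi⟩⟩
  have hcov : Covers e {v1, v2, v3, v4} := by
    intro i
    have hi : i ∈ A ∨ i ∈ Aᶜ := em _
    have h1 := hv i
    change p i ∈ ({v1, v2, v3, v4} : Finset (V₁ ⊕ V₂ ⊕ V₃)) ∨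
      q i ∈ ({v1, v2, v3, v4} : Finset (V₁ ⊕ V₂ ⊕ V₃)) ∨
      r i ∈ ({v1, v2, v3, v4} : Finset (V₁ ⊕ V₂ ⊕ V₃))
    simp only [Finset.mem_insert, Finset.mem_singleton]
    by_contra hcon
    push Not at hcon
    exact h1 ⟨hi, hcon.1, hcon.2.1, hcon.2.2⟩
  have hcard : ({v1, v2, v3, v4} : Finset (V₁ ⊕ V₂ ⊕ V₃)).card ≤ 4 := Finset.card_le_four
  have htau : tau e ≤ ({v1, v2, v3, v4} : Finset (V₁ ⊕ V₂ ⊕ V₃)).card :=
    Nat.sInf_le ⟨_, hcov, rfl⟩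
  exact ⟨htau.trans hcard, _, hcov, hcard⟩

end Pool.Agent.MatchConn
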